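import Pool.Agent.Helper53.CTG.Goals

/-!
# The deterministic first phases of the machine (goal FC0 of project CTG)
-/

set_option autoImplicit false

namespace Pool.Agent.Helper67.CTG

open Pool.Agent.Helper1.TE (NumMach cif codeB)
open Pool.Agent.Helper53.CTG
open Pool.Agent.Helper65.LinSpace (dig ifz eq01 le01 lt01 capPow Ctx)

section

variable (ok : ℕ → ℕ → ℕ → ℕ → ℕ) (tst : ℕ → ℕ) (mal : ℕ) (w : List Bool)

theorem nx0 (x : Sta) : (machM ok tst mal).nx w x 0 =
    nextN ok tst mal x (codeB w[addrM x]?) 0 := by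
  simp [NumMach.nx, machM, nextM, cif]

theorem step0 {x x' : Sta} (hx : (machM ok tst mal).Reach w x)
    (h : (machM ok tst mal).nx w x 0 = x') : (machM ok tst mal).Reach w x' :=
  Relation.ReflTransGen.tail hx ⟨0, by norm_num, h.symm⟩

theorem code_ne {i : ℕ} (h : i < w.length) : ∃ y, codeB w[i]? = y + 1 := by
  rw [List.getElem?_eq_getElem h]
  exact ⟨(w[i]).toNat, by simp [codeB, Nat.add_comm]⟩

theorem nx_0t (h : ℕ) (hl : w[h]? = some true) :
    (machM ok tst mal).nx w (hdr 0 h 0 0 0 0 0) 0 = hdr 0 (h + 1) 0 0 0 0 0 := by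
  rw [nx0, show addrM (hdr 0 h 0 0 0 0 0) = h from rfl, hl]
  rfl

theorem nx_0f (h : ℕ) (hl : w[h]? = some false) :
    (machM ok tst mal).nx w (hdr 0 h 0 0 0 0 0) 0 = hdr 1 h 0 0 0 0 0 := by
  rw [nx0, show addrM (hdr 0 h 0 0 0 0 0) = h from rfl, hl]
  rfl

theorem nx_1t (h q : ℕ) (hl : w[h + 1 + q]? = some true) :
    (machM ok tst mal).nx w (hdr 1 h q 0 0 0 0) 0 = hdr 1 h (q + 1) 0 0 0 0 := by
  rw [nx0, show addrM (hdr 1 h q 0 0 0 0) = h + 1 + q from rfl, hl]
  rfl

theorem nx_1f (h q : ℕ) (hl : w[h + 1 + q]? = some false) :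
    (machM ok tst mal).nx w (hdr 1 h q 0 0 0 0) 0 = hdr 2 h q 0 0 0 0 := by
  rw [nx0, show addrM (hdr 1 h q 0 0 0 0) = h + 1 + q from rfl, hl]
  rfl

theorem nx_2t (h q b : ℕ) (hl : w[h + q + 2 + b]? = some true) :
    (machM ok tst mal).nx w (hdr 2 h q b 0 0 0) 0 = hdr 2 h q (b + 1) 0 0 0 := by
  rw [nx0, show addrM (hdr 2 h q b 0 0 0) = h + q + 2 + b from rfl, hl]
  rfl

theorem nx_2f (h q b : ℕ) (hl : w[h + q + 2 + b]? = some false) :
    (machM ok tst mal).nx w (hdr 2 h q b 0 0 0) 0 = hdr 3 h q b 0 0 0 := by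
  rw [nx0, show addrM (hdr 2 h q b 0 0 0) = h + q + 2 + b from rfl, hl]
  rfl

theorem nx_3t (h q b c : ℕ) (hl : w[h + q + b + 3 + c]? = some true) :
    (machM ok tst mal).nx w (hdr 3 h q b c 0 0) 0 = hdr 3 h q b (c + 1) 0 0 := by
  rw [nx0, show addrM (hdr 3 h q b c 0 0) = h + q + b + 3 + c from rfl, hl]
  rfl

theorem nx_3f (h q b c : ℕ) (hl : w[h + q + b + 3 + c]? = some false) (hq : 1 ≤ q)
    (hh : q ≤ h) (hb : 1 ≤ b) (hc : c ≤ b) (hok : ok h q b c ≠ 0) :
    (machM ok tst mal).nx w (hdr 3 h q b c 0 0) 0 = hdr 4 h q b c 0 1 := by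
  rw [nx0, show addrM (hdr 3 h q b c 0 0) = h + q + b + 3 + c from rfl, hl]
  have hle : le01 c b ≠ 0 := by
    unfold le01
    simp [hc]
  have hle' : le01 q h ≠ 0 := by
    unfold le01
    simp [hh]
  have h1 : q * le01 q h * b * le01 c b * ok h q b c ≠ 0 := by
    have h3 : q ≠ 0 := by omega
    have h4 : b ≠ 0 := by omega
    exact mul_ne_zero (mul_ne_zero (mul_ne_zero (mul_ne_zero h3 hle') h4) hle) hok
  change cif (q * le01 q h * b * le01 c b * ok h q b c) (malS mal) (hdr 4 h q b c 0 1) = _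
  rw [cif, if_neg h1]

theorem nx_4 (h q b c u W : ℕ) (hl : W < w.length) :
    (machM ok tst mal).nx w (hdr 4 h q b c u W) 0 =
      if h + b - u = 0 then hdr 5 h q b c 0 1 else hdr 4 h q b c (u + 1) (2 * W) := by
  rw [nx0, show addrM (hdr 4 h q b c u W) = W from rfl]
  obtain ⟨y, hy⟩ := code_ne w hl
  rw [hy]
  rfl

theorem nx_5 (h q b c u W : ℕ) :
    (machM ok tst mal).nx w (hdr 5 h q b c u W) 0 =
      if Et h q b c - u = 0 then mainS h q b c 0 W 0 0 0 (root h q) 0 0 0
      else hdr 5 h q b c (u + 1) (2 * W) := by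
  rw [nx0]
  rfl

end

/-- Goal FC0. -/
theorem gFC0 : GoalFC0 := by
  intro ok tst mal w h q b c hF
  obtain ⟨⟨⟨⟨⟨p1, p2, p3⟩, p4, p5⟩, p6, p7⟩, p8, hq, hh, hb, hc, hok⟩, hlen⟩ := hF
  have s0 : ∀ i ≤ h, (machM ok tst mal).Reach w (hdr 0 i 0 0 0 0 0) := by
    intro i
    induction i with
    | zero => intro _; exact Relation.ReflTransGen.refl
    | succ i ih =>
      intro hi
      have := p1 i (by omega)
      rw [zero_add] at this
      exact step0 ok tst mal w (ih (by omega)) (nx_0t ok tst mal w i this)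
  have s1 : ∀ i ≤ q, (machM ok tst mal).Reach w (hdr 1 h i 0 0 0 0) := by
    intro i
    induction i with
    | zero => intro _; exact step0 ok tst mal w (s0 h le_rfl) (nx_0f ok tst mal w h p2)
    | succ i ih =>
      intro hi
      exact step0 ok tst mal w (ih (by omega)) (nx_1t ok tst mal w h i (p3 i (by omega)))
  have s2 : ∀ i ≤ b, (machM ok tst mal).Reach w (hdr 2 h q i 0 0 0) := by
    intro i
    induction i with
    | zero => intro _; exact step0 ok tst mal w (s1 q le_rfl) (nx_1f ok tst mal w h q p4)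
    | succ i ih =>
      intro hi
      exact step0 ok tst mal w (ih (by omega)) (nx_2t ok tst mal w h q i (p5 i (by omega)))
  have s3 : ∀ i ≤ c, (machM ok tst mal).Reach w (hdr 3 h q b i 0 0) := by
    intro i
    induction i with
    | zero => intro _; exact step0 ok tst mal w (s2 b le_rfl) (nx_2f ok tst mal w h q b p6)
    | succ i ih =>
      intro hi
      exact step0 ok tst mal w (ih (by omega)) (nx_3t ok tst mal w h q b i (p7 i (by omega)))
  have s4 : ∀ u ≤ h + b, (machM ok tst mal).Reach w (hdr 4 h q b c u (2 ^ u)) := by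
    intro u
    induction u with
    | zero =>
      intro _
      exact step0 ok tst mal w (s3 c le_rfl) (nx_3f ok tst mal w h q b c p8 hq hh hb hc hok)
    | succ u ih =>
      intro hu
      have h3 : 2 ^ u ≤ 2 ^ (h + b) := Nat.pow_le_pow_right (by norm_num) (by omega)
      refine step0 ok tst mal w (ih (by omega)) ?_
      rw [nx_4 ok tst mal w h q b c u (2 ^ u) (by omega), if_neg (by omega), pow_succ,
        Nat.mul_comm]
  have s5 : ∀ u ≤ Et h q b c, (machM ok tst mal).Reach w (hdr 5 h q b c u (2 ^ u)) := by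
    intro u
    induction u with
    | zero =>
      intro _
      refine step0 ok tst mal w (s4 (h + b) le_rfl) ?_
      rw [nx_4 ok tst mal w h q b c (h + b) (2 ^ (h + b)) hlen, if_pos (Nat.sub_self _),
        pow_zero]
    | succ u ih =>
      intro hu
      refine step0 ok tst mal w (ih (by omega)) ?_
      rw [nx_5 ok tst mal w h q b c u (2 ^ u), if_neg (by omega), pow_succ 2 u,
        Nat.mul_comm (2 ^ u) 2]
  refine step0 ok tst mal w (s5 (Et h q b c) le_rfl) ?_
  rw [nx_5 ok tst mal w h q b c (Et h q b c) (2 ^ Et h q b c), if_pos (Nat.sub_self _)]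

end Pool.Agent.Helper67.CTG
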